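import Mathlib

/-!
# A criterion for extreme amenability of groups with a bi-invariant metric
-/

set_option autoImplicit false

namespace Pool.Agent.W335.EA

open Set Filter Topology

/-- The criterion for one finite set, one number of functions and one error. -/
def Crit {G : Type} [Group G] (d : G → G → ℝ) (F : Finset G) (k : ℕ) (ε : ℝ) : Prop :=
  ∀ h : Fin k × G → ℝ, (∀ i, h i ∈ Icc (0 : ℝ) 1) →
    (∀ j g g', |h (j, g) - h (j, g')| ≤ d g g') →
    ∃ g, ∀ x ∈ F, ∀ j, |h (j, x * g) - h (j, g)| < ε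

/-- A bi-invariant pseudometric. -/
structure IsBI {G : Type} [Group G] (d : G → G → ℝ) : Prop where
  self : ∀ g, d g g = 0
  symm : ∀ g h, d g h = d h g
  tri : ∀ g h k, d g k ≤ d g h + d h k
  left : ∀ g h k, d (k * g) (k * h) = d g h
  right : ∀ g h k, d (g * k) (h * k) = d g h

theorem IsBI.nonneg {G : Type} [Group G] {d : G → G → ℝ} (hd : IsBI d) (g h : G) : 0 ≤ d g h := by
  have h1 := hd.tri g h g
  rw [hd.self, hd.symm h g] at h1
  linarith

/-- The continuity of an action. -/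
def ContAct {G : Type} [Group G] (d : G → G → ℝ) (X : Type*) [TopologicalSpace X] [MulAction G X] :
    Prop :=
  ∀ (g : G) (x : X) (U : Set X), IsOpen U → g • x ∈ U →
    ∃ ε > (0 : ℝ), ∃ V : Set X, IsOpen V ∧ x ∈ V ∧ ∀ h : G, d g h < ε → ∀ y ∈ V, h • y ∈ U

section fixed

variable {G : Type} [Group G] {d : G → G → ℝ} {X : Type*} [TopologicalSpace X] [CompactSpace X]
  [MulAction G X]

theorem unif (hX : ContAct d X) (φ : X → ℝ) (hφ : Continuous φ) {ε : ℝ} (hε : 0 < ε) :
    ∃ δ > 0, ∀ u : G, d 1 u < δ → ∀ y : X, |φ (u • y) - φ y| < ε := by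
  classical
  have h1 : ∀ y : X, ∃ δ > 0, ∃ V : Set X, IsOpen V ∧ y ∈ V ∧
      ∀ u : G, d 1 u < δ → ∀ z ∈ V, |φ (u • z) - φ z| < ε := by
    intro y
    let U : Set X := {z | |φ z - φ y| < ε / 2}
    have hU : IsOpen U := isOpen_lt (by fun_prop) continuous_const
    obtain ⟨δ, hδ, V, hV, hyV, h⟩ := hX 1 y U hU (by
      show |φ ((1 : G) • y) - φ y| < ε / 2
      rw [one_smul, sub_self, abs_zero]; positivity)
    refine ⟨δ, hδ, V ∩ U, hV.inter hU, ⟨hyV, by
      show |φ y - φ y| < ε / 2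
      rw [sub_self, abs_zero]; positivity⟩, fun u hu z hz => ?_⟩
    have h2 : |φ (u • z) - φ y| < ε / 2 := h u hu z hz.1
    have h3 : |φ z - φ y| < ε / 2 := hz.2
    calc |φ (u • z) - φ z| = |(φ (u • z) - φ y) - (φ z - φ y)| := by ring_nf
      _ ≤ |φ (u • z) - φ y| + |φ z - φ y| := abs_sub _ _
      _ < ε := by linarith
  choose δ hδ V hV hyV h using h1
  obtain ⟨t, ht⟩ := isCompact_univ.elim_nhds_subcover V (fun y _ => (hV y).mem_nhds (hyV y))
  have h2 : ∃ δ₀ > 0, ∀ y ∈ t, δ₀ ≤ δ y := by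
    clear ht
    induction t using Finset.induction_on with
    | empty => exact ⟨1, one_pos, by simp⟩
    | insert a s _ ih =>
      obtain ⟨δ₁, h1, h2⟩ := ih
      refine ⟨min δ₁ (δ a), lt_min h1 (hδ a), fun y hy => ?_⟩
      rcases Finset.mem_insert.1 hy with rfl | hy
      · exact min_le_right _ _
      · exact (min_le_left _ _).trans (h2 y hy)
  obtain ⟨δ₀, hδ₀, h3⟩ := h2
  refine ⟨δ₀, hδ₀, fun u hu z => ?_⟩
  have h4 := ht.2 (mem_univ z)
  rw [mem_iUnion₂] at h4
  obtain ⟨y, hy, hz⟩ := h4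
  exact h y u (lt_of_lt_of_le hu (h3 y hy)) z hz

/-- Lipschitz approximation. -/
theorem lip_approx (hd : IsBI d) (h : G → ℝ) (h01 : ∀ g, h g ∈ Icc (0 : ℝ) 1) {ε δ : ℝ}
    (hδ : 0 < δ) (hu : ∀ g g', d g g' < δ → |h g - h g'| < ε) (L : ℝ) (hL : 1 / δ ≤ L)
    (hL1 : 1 ≤ L) : ∃ h' : G → ℝ, (∀ g, h' g ∈ Icc (0 : ℝ) 1) ∧
      (∀ g g', |h' g - h' g'| ≤ L * d g g') ∧ ∀ g, |h g - h' g| ≤ ε := by
  have hL0 : 0 ≤ L := by linarith
  have hε : 0 < ε := lt_of_le_of_lt (abs_nonneg _) (hu 1 1 (by rw [hd.self]; exact hδ))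
  let h' : G → ℝ := fun g => ⨅ g', (h g' + L * d g g')
  have hbdd : ∀ g, BddBelow (range fun g' => h g' + L * d g g') := by
    intro g
    refine ⟨0, ?_⟩
    rintro _ ⟨g', rfl⟩
    have := (h01 g').1
    have := hd.nonneg g g'
    positivity
  have hle : ∀ g g', h' g ≤ h g' + L * d g g' := fun g g' => ciInf_le (hbdd g) g'
  have hge : ∀ g (r : ℝ), (∀ g', r ≤ h g' + L * d g g') → r ≤ h' g := fun g r hr => le_ciInf hr
  have hlow : ∀ g, h g - ε ≤ h' g := by
    intro g
    refine hge g _ fun g' => ?_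
    by_cases hg : d g g' < δ
    · have h1 := abs_lt.1 (hu g g' hg)
      have h2 : 0 ≤ L * d g g' := mul_nonneg hL0 (hd.nonneg _ _)
      linarith
    · have h1 : 1 ≤ L * d g g' := by
        have h3 : 1 ≤ L * δ := by rwa [div_le_iff₀ hδ] at hL
        have h4 : L * δ ≤ L * d g g' := by
          push Not at hg
          gcongr
        linarith
      have h2 := (h01 g).2
      have h5 := (h01 g').1
      linarith
  have hself : ∀ g, h' g ≤ h g := by
    intro g
    have := hle g g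
    rwa [hd.self, mul_zero, add_zero] at this
  refine ⟨h', fun g => ⟨hge g 0 fun g' => ?_, (hself g).trans (h01 g).2⟩, fun g g' => ?_,
    fun g => ?_⟩
  · have := (h01 g').1
    have := hd.nonneg g g'
    positivity
  · have key : ∀ a b, h' a ≤ h' b + L * d a b := by
      intro a b
      have h1 : h' a - L * d a b ≤ h' b := by
        refine hge b _ fun c => ?_
        have h2 := hle a c
        have h3 : L * d a c ≤ L * (d a b + d b c) := by
          gcongr
          exact hd.tri a b c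
        linarith
      linarith
    have h1 := key g g'
    have h2 := key g' g
    rw [hd.symm g' g] at h2
    exact abs_le.2 ⟨by linarith, by linarith⟩
  · exact abs_le.2 ⟨by have := hself g; linarith, by have := hlow g; linarith⟩

/-- The criterion gives almost fixed points for finitely many functions. -/
theorem almost_fixed (hd : IsBI d) (hC : ∀ F k ε, 0 < ε → Crit d F k ε) (hX : ContAct d X)
    (x₀ : X) (k : ℕ) (φ : Fin k → X → ℝ) (hφ : ∀ j, Continuous (φ j))
    (h01 : ∀ j y, φ j y ∈ Icc (0 : ℝ) 1) (F : Finset G) {ε : ℝ} (hε : 0 < ε) :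
    ∃ y : X, ∀ x ∈ F, ∀ j, |φ j (x • y) - φ j y| < ε := by
  have hδ : ∀ j, ∃ δ > 0, ∀ u : G, d 1 u < δ → ∀ y : X, |φ j (u • y) - φ j y| < ε / 4 :=
    fun j => unif hX (φ j) (hφ j) (by positivity)
  choose δ hδ0 hδ using hδ
  obtain ⟨L₀, hL₀⟩ := Finite.exists_le (fun j => 1 / δ j)
  set L := max 1 L₀ with hL
  have hL1 : 1 ≤ L := le_max_left _ _
  have hL0 : 0 < L := by linarith
  have happ : ∀ j, ∃ h' : G → ℝ, (∀ g, h' g ∈ Icc (0 : ℝ) 1) ∧
      (∀ g g', |h' g - h' g'| ≤ L * d g g') ∧ ∀ g, |φ j (g • x₀) - h' g| ≤ ε / 4 := by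
    intro j
    refine lip_approx hd (fun g => φ j (g • x₀)) (fun g => h01 j _) (hδ0 j) (fun g g' hgg => ?_) L
      ((hL₀ j).trans (le_max_right _ _)) hL1
    have h1 : d 1 (g * g'⁻¹) = d g' g := by
      have := hd.right g' g g'⁻¹
      rw [mul_inv_cancel] at this
      exact this
    have h2 := hδ j (g * g'⁻¹) (by rw [h1, hd.symm]; exact hgg) (g' • x₀)
    rwa [← mul_smul, inv_mul_cancel_right] at h2
  choose h' h'01 h'L h'a using happ
  obtain ⟨g, hg⟩ := hC F k (ε / (4 * L)) (by positivity) (fun i => h' i.1 i.2 / L)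
    (fun i => ⟨div_nonneg (h'01 _ _).1 hL0.le, (div_le_one hL0).2 ((h'01 _ _).2.trans hL1)⟩)
    (fun j g g' => by
      show |h' j g / L - h' j g' / L| ≤ d g g'
      rw [← sub_div, abs_div, abs_of_pos hL0, div_le_iff₀ hL0, mul_comm]
      exact h'L j g g')
  refine ⟨g • x₀, fun x hx j => ?_⟩
  have h1 : |h' j (x * g) - h' j g| < ε / 4 := by
    have h2 : |h' j (x * g) / L - h' j g / L| < ε / (4 * L) := hg x hx j
    rw [← sub_div, abs_div, abs_of_pos hL0, div_lt_iff₀ hL0] at h2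
    have h3 : ε / (4 * L) * L = ε / 4 := by field_simp
    rwa [h3] at h2
  have h2 := abs_le.1 (h'a j (x * g))
  have h3 := abs_le.1 (h'a j g)
  have h4 := abs_lt.1 h1
  rw [mul_smul] at h2
  exact abs_lt.2 ⟨by linarith, by linarith⟩

/-- The criterion implies the fixed point property. -/
theorem exists_fixed [T2Space X] [Nonempty X] (hd : IsBI d)
    (hC : ∀ F k ε, 0 < ε → Crit d F k ε) (hX : ContAct d X) : ∃ x : X, ∀ g : G, g • x = x := by
  classical
  obtain ⟨x₀⟩ := ‹Nonempty X›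
  have hcont : ∀ g : G, Continuous fun y : X => g • y := by
    intro g
    rw [continuous_def]
    intro U hU
    rw [isOpen_iff_forall_mem_open]
    intro y hy
    obtain ⟨ε, hε, V, hV, hyV, h⟩ := hX g y U hU hy
    exact ⟨V, fun z hz => h g (by rw [hd.self]; exact hε) z hz, hV, hyV⟩
  let ι := G × {φ : C(X, ℝ) // ∀ y, φ y ∈ Icc (0 : ℝ) 1} × ℕ
  let C : ι → Set X := fun i => {y | |i.2.1.1 (i.1 • y) - i.2.1.1 y| ≤ 1 / ((i.2.2 : ℝ) + 1)}
  have hC' : ∀ i, IsClosed (C i) := by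
    intro i
    have h1 := hcont i.1
    exact isClosed_le (by fun_prop) continuous_const
  obtain ⟨y, hy⟩ := isCompact_univ.inter_iInter_nonempty C hC' (by
    intro u
    obtain ⟨N, hN⟩ := Finset.exists_le (u.image fun i => i.2.2)
    obtain ⟨y, hy⟩ := almost_fixed hd hC hX x₀ u.card (fun j => (u.equivFin.symm j).1.2.1.1)
      (fun j => (u.equivFin.symm j).1.2.1.1.continuous) (fun j => (u.equivFin.symm j).1.2.1.2)
      (u.image fun i => i.1) (ε := 1 / ((N : ℝ) + 1)) (by positivity)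
    refine ⟨y, mem_univ _, mem_iInter₂.2 fun i hi => ?_⟩
    have h1 := hy i.1 (Finset.mem_image_of_mem _ hi) (u.equivFin ⟨i, hi⟩)
    rw [Equiv.symm_apply_apply] at h1
    refine h1.le.trans ?_
    have h2 : (i.2.2 : ℝ) ≤ N := by exact_mod_cast hN _ (Finset.mem_image_of_mem _ hi)
    gcongr)
  refine ⟨y, fun g => ?_⟩
  by_contra hne
  obtain ⟨φ, h0, h1, h01⟩ := exists_continuous_zero_one_of_isClosed
    (isClosed_singleton (x := y)) (isClosed_singleton (x := g • y))
    (Set.disjoint_singleton.2 (Ne.symm hne))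
  have h2 := mem_iInter.1 hy.2 (g, ⟨φ, h01⟩, 1)
  have h3 : |φ (g • y) - φ y| ≤ 1 / (((1 : ℕ) : ℝ) + 1) := h2
  rw [h0 rfl, h1 rfl] at h3
  norm_num at h3

end fixed

section converse

variable {G : Type} [Group G] {d : G → G → ℝ}

/-- The bad functions. -/
def Bad (d : G → G → ℝ) (F : Finset G) (k : ℕ) (ε : ℝ) : Set (Fin k × G → ℝ) :=
  {h | (∀ i, h i ∈ Icc (0 : ℝ) 1) ∧ (∀ j g g', |h (j, g) - h (j, g')| ≤ d g g') ∧
    ∀ g, ∃ x ∈ F, ∃ j, ε ≤ |h (j, x * g) - h (j, g)|}

theorem isClosed_bad (F : Finset G) (k : ℕ) (ε : ℝ) :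
    IsClosed {p : (Fin k × G → ℝ) × (G → G → ℝ) | p.1 ∈ Bad p.2 F k ε} := by
  have h1 : {p : (Fin k × G → ℝ) × (G → G → ℝ) | p.1 ∈ Bad p.2 F k ε} =
      (⋂ i, {p | p.1 i ∈ Icc (0 : ℝ) 1}) ∩
      ((⋂ j, ⋂ g, ⋂ g', {p | |p.1 (j, g) - p.1 (j, g')| ≤ p.2 g g'}) ∩
      (⋂ g, ⋃ x ∈ F, ⋃ j, {p | ε ≤ |p.1 (j, x * g) - p.1 (j, g)|})) := by
    ext p
    constructor
    · rintro ⟨h1, h2, h3⟩
      refine ⟨mem_iInter.2 h1, mem_iInter.2 fun j => mem_iInter.2 fun g => mem_iInter.2 (h2 j g),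
        mem_iInter.2 fun g => ?_⟩
      obtain ⟨x, hx, j, hj⟩ := h3 g
      exact mem_iUnion₂.2 ⟨x, hx, mem_iUnion.2 ⟨j, hj⟩⟩
    · rintro ⟨h1, h2, h3⟩
      refine ⟨fun i => mem_iInter.1 h1 i, fun j g g' =>
        mem_iInter.1 (mem_iInter.1 (mem_iInter.1 h2 j) g) g', fun g => ?_⟩
      obtain ⟨x, hx, h4⟩ := mem_iUnion₂.1 (mem_iInter.1 h3 g)
      obtain ⟨j, hj⟩ := mem_iUnion.1 h4
      exact ⟨x, hx, j, hj⟩
  rw [h1]
  refine IsClosed.inter (isClosed_iInter fun i => ?_) (IsClosed.inter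
    (isClosed_iInter fun j => isClosed_iInter fun g => isClosed_iInter fun g' => ?_)
    (isClosed_iInter fun g => isClosed_biUnion_finset fun x _ => isClosed_iUnion_of_finite fun j => ?_))
  · exact isClosed_Icc.preimage ((continuous_apply i).comp continuous_fst)
  · exact isClosed_le (by fun_prop) (by fun_prop)
  · exact isClosed_le (by fun_prop) (by fun_prop)

theorem isOpen_crit (F : Finset G) (k : ℕ) (ε : ℝ) :
    IsOpen {d : G → G → ℝ | Crit d F k ε} := by
  have h1 : {d : G → G → ℝ | Crit d F k ε}ᶜ =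
      (Prod.snd : (Fin k × G → Icc (0 : ℝ) 1) × (G → G → ℝ) → (G → G → ℝ)) ''
        ((fun p => ((fun i => (p.1 i : ℝ)), p.2)) ⁻¹'
          {p : (Fin k × G → ℝ) × (G → G → ℝ) | p.1 ∈ Bad p.2 F k ε}) := by
    ext d
    constructor
    · intro hd
      have hd' : ¬ Crit d F k ε := hd
      unfold Crit at hd'
      push Not at hd'
      obtain ⟨h, h1, h2, h3⟩ := hd'
      exact ⟨((fun i => ⟨h i, h1 i⟩), d), ⟨h1, h2, h3⟩, rfl⟩
    · rintro ⟨⟨h, d'⟩, ⟨h1, h2, h3⟩, rfl⟩ hd
      obtain ⟨g, hg⟩ := hd (fun i => (h i : ℝ)) h1 h2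
      obtain ⟨x, hx, j, hj⟩ := h3 g
      exact absurd (hg x hx j) (not_lt.2 hj)
  rw [← isClosed_compl_iff, h1]
  refine isClosedMap_snd_of_compactSpace _ ((isClosed_bad F k ε).preimage ?_)
  fun_prop

/-- Extreme amenability implies the criterion. -/
theorem crit_of_ea (hd : IsBI d)
    (hEA : ∀ (X : Type) [TopologicalSpace X] [CompactSpace X] [T2Space X] [Nonempty X]
      [MulAction G X], ContAct d X → ∃ x : X, ∀ g : G, g • x = x)
    (F : Finset G) (k : ℕ) (ε : ℝ) (hε : 0 < ε) : Crit d F k ε := by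
  classical
  by_contra hcrit
  unfold Crit at hcrit
  push Not at hcrit
  obtain ⟨h₀, h1, h2, h3⟩ := hcrit
  let X : Type := Bad d F k ε
  have hclosed : IsClosed (Bad d F k ε) := by
    have := (isClosed_bad (G := G) F k ε).preimage
      (f := fun h : Fin k × G → ℝ => (h, d)) (by fun_prop)
    exact this
  have hcompact : IsCompact (Bad d F k ε) := by
    refine IsCompact.of_isClosed_subset
      (isCompact_univ_pi (s := fun _ : Fin k × G => Icc (0 : ℝ) 1) fun _ => isCompact_Icc)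
      hclosed fun h hh i _ => hh.1 i
  have : CompactSpace X := isCompact_iff_compactSpace.1 hcompact
  have : Nonempty X := ⟨⟨h₀, h1, h2, h3⟩⟩
  let A : MulAction G X :=
    { smul := fun a h => ⟨fun i => h.1 (i.1, i.2 * a), fun i => h.2.1 _, fun j g g' => by
        have := h.2.2.1 j (g * a) (g' * a)
        rwa [hd.right] at this, fun g => by
        obtain ⟨x, hx, j, hj⟩ := h.2.2.2 (g * a)
        refine ⟨x, hx, j, ?_⟩
        rwa [← mul_assoc] at hj⟩
      one_smul := fun h => by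
        apply Subtype.ext
        funext i
        show h.1 (i.1, i.2 * 1) = h.1 i
        rw [mul_one]
      mul_smul := fun a b h => by
        apply Subtype.ext
        funext i
        show h.1 (i.1, i.2 * (a * b)) = h.1 (i.1, i.2 * a * b)
        rw [mul_assoc] }
  have hcont : ContAct d X := by
    intro a y U hU hy
    obtain ⟨O, hO, rfl⟩ := isOpen_induced_iff.1 hU
    obtain ⟨I, u, hu, hI⟩ := isOpen_pi_iff.1 hO _ hy
    have hr : ∀ i : Fin k × G, ∃ r > 0, i ∈ I → ∀ s : ℝ, |s - y.1 (i.1, i.2 * a)| < r → s ∈ u i := by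
      intro i
      by_cases hi : i ∈ I
      · obtain ⟨r, hr, h⟩ := Metric.isOpen_iff.1 (hu i hi).1 _ (hu i hi).2
        exact ⟨r, hr, fun _ s hs => h (by rw [Metric.mem_ball, Real.dist_eq]; exact hs)⟩
      · exact ⟨1, one_pos, fun h => absurd h hi⟩
    choose r hr hr' using hr
    have hmin : ∃ r₀ > 0, ∀ i ∈ I, r₀ ≤ r i := by
      clear hI hu
      induction I using Finset.induction_on with
      | empty => exact ⟨1, one_pos, by simp⟩
      | insert b s _ ih =>
        obtain ⟨δ₁, h1, h2⟩ := ih (fun i => by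
          by_cases hi : i ∈ insert b s
          · by_cases hi' : i ∈ s
            · exact fun _ => hr' i hi
            · exact fun h => absurd h hi'
          · exact fun h => absurd (Finset.mem_insert_of_mem h) hi)
        refine ⟨min δ₁ (r b), lt_min h1 (hr b), fun y hy => ?_⟩
        rcases Finset.mem_insert.1 hy with rfl | hy
        · exact min_le_right _ _
        · exact (min_le_left _ _).trans (h2 y hy)
    obtain ⟨r₀, hr₀, hmin⟩ := hmin
    refine ⟨r₀ / 2, by positivity, ⋂ i ∈ I, {z : X | |z.1 (i.1, i.2 * a) - y.1 (i.1, i.2 * a)| < r₀ / 2},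
      ?_, ?_, ?_⟩
    · refine isOpen_biInter_finset fun i _ => ?_
      have hc : Continuous fun z : X => z.1 (i.1, i.2 * a) :=
        (continuous_apply _).comp continuous_subtype_val
      exact isOpen_lt (hc.sub continuous_const).abs continuous_const
    · refine mem_iInter₂.2 fun i _ => ?_
      show |y.1 (i.1, i.2 * a) - y.1 (i.1, i.2 * a)| < r₀ / 2
      rw [sub_self, abs_zero]
      positivity
    · intro b hb z hz
      apply hI
      intro i hi
      refine hr' i hi _ ?_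
      have h4 : |z.1 (i.1, i.2 * a) - y.1 (i.1, i.2 * a)| < r₀ / 2 := mem_iInter₂.1 hz i hi
      have h5 : |z.1 (i.1, i.2 * b) - z.1 (i.1, i.2 * a)| ≤ d a b := by
        have := z.2.2.1 i.1 (i.2 * b) (i.2 * a)
        rwa [hd.left, hd.symm] at this
      have h6 := hmin i hi
      show |z.1 (i.1, i.2 * b) - y.1 (i.1, i.2 * a)| < r i
      calc |z.1 (i.1, i.2 * b) - y.1 (i.1, i.2 * a)| =
          |(z.1 (i.1, i.2 * b) - z.1 (i.1, i.2 * a)) +
            (z.1 (i.1, i.2 * a) - y.1 (i.1, i.2 * a))| := by ring_nf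
        _ ≤ |z.1 (i.1, i.2 * b) - z.1 (i.1, i.2 * a)| +
            |z.1 (i.1, i.2 * a) - y.1 (i.1, i.2 * a)| := abs_add_le _ _
        _ < r i := by linarith
  obtain ⟨y, hy⟩ := hEA X hcont
  have hfix : ∀ j g, y.1 (j, g) = y.1 (j, 1) := by
    intro j g
    have h4 := congrArg (fun z : X => z.1 (j, 1)) (hy g)
    have h5 : y.1 (j, 1 * g) = y.1 (j, 1) := h4
    rwa [one_mul] at h5
  obtain ⟨x, hx, j, hj⟩ := y.2.2.2 1
  rw [hfix j (x * 1), hfix j 1, sub_self, abs_zero] at hj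
  linarith

end converse

end Pool.Agent.W335.EA
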