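import Mathlib

/-!
# A variance bound for functions with bounded differences
-/

set_option autoImplicit false

namespace Pool.Agent.W335.EA

theorem conc (B : Type) [Fintype B] [Nonempty B] {κ : ℝ} (hκ : 0 ≤ κ) :
    ∀ (m : ℕ) (H : (Fin m → B) → ℝ),
      (∀ t z b, |H (Function.update t z b) - H t| ≤ κ) →
      ∃ M : ℝ, ∑ t, (H t - M) ^ 2 ≤ m * κ ^ 2 * (Fintype.card B : ℝ) ^ m := by
  intro m
  induction m with
  | zero =>
    intro H _
    refine ⟨H default, ?_⟩
    simp [Fintype.sum_unique]
  | succ m ih =>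
    intro H hH
    set c : ℝ := (Fintype.card B : ℝ) with hc
    have hc0 : 0 < c := by rw [hc]; exact_mod_cast Fintype.card_pos
    let G : (Fin m → B) → ℝ := fun t => (∑ b, H (Fin.cons b t)) / c
    have hcons : ∀ (b b' : B) (t : Fin m → B), |H (Fin.cons b t) - H (Fin.cons b' t)| ≤ κ := by
      intro b b' t
      have h := hH (Fin.cons b' t) 0 b
      rwa [Fin.update_cons_zero] at h
    have hG : ∀ t z b, |G (Function.update t z b) - G t| ≤ κ := by
      intro t z b
      have h1 : G (Function.update t z b) - G t =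
          (∑ b', (H (Fin.cons b' (Function.update t z b)) - H (Fin.cons b' t))) / c := by
        show (∑ b', H (Fin.cons b' (Function.update t z b))) / c - (∑ b', H (Fin.cons b' t)) / c = _
        rw [Finset.sum_sub_distrib, sub_div]
      rw [h1, abs_div, abs_of_pos hc0, div_le_iff₀ hc0]
      calc |∑ b', (H (Fin.cons b' (Function.update t z b)) - H (Fin.cons b' t))|
          ≤ ∑ b', |H (Fin.cons b' (Function.update t z b)) - H (Fin.cons b' t)| :=
            Finset.abs_sum_le_sum_abs _ _
        _ ≤ ∑ _b' : B, κ := by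
            refine Finset.sum_le_sum fun b' _ => ?_
            have h := hH (Fin.cons b' t) z.succ b
            rwa [← Fin.cons_update] at h
        _ = κ * c := by
            rw [Finset.sum_const, Finset.card_univ, nsmul_eq_mul, mul_comm, hc]
    obtain ⟨M, hM⟩ := ih G hG
    refine ⟨M, ?_⟩
    have hGH : ∀ (b : B) (t : Fin m → B), |H (Fin.cons b t) - G t| ≤ κ := by
      intro b t
      have h1 : H (Fin.cons b t) - G t = (∑ b', (H (Fin.cons b t) - H (Fin.cons b' t))) / c := by
        show H (Fin.cons b t) - (∑ b', H (Fin.cons b' t)) / c = _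
        rw [Finset.sum_sub_distrib, Finset.sum_const, Finset.card_univ, nsmul_eq_mul, ← hc]
        field_simp
      rw [h1, abs_div, abs_of_pos hc0, div_le_iff₀ hc0]
      calc |∑ b', (H (Fin.cons b t) - H (Fin.cons b' t))|
          ≤ ∑ b', |H (Fin.cons b t) - H (Fin.cons b' t)| := Finset.abs_sum_le_sum_abs _ _
        _ ≤ ∑ _b' : B, κ := Finset.sum_le_sum fun b' _ => hcons _ _ _
        _ = κ * c := by
            rw [Finset.sum_const, Finset.card_univ, nsmul_eq_mul, mul_comm, hc]
    have hsplit : ∀ t : Fin m → B, ∑ b, (H (Fin.cons b t) - M) ^ 2 =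
        ∑ b, (H (Fin.cons b t) - G t) ^ 2 + c * (G t - M) ^ 2 := by
      intro t
      have h1 : ∑ b, (H (Fin.cons b t) - G t) = 0 := by
        rw [Finset.sum_sub_distrib, Finset.sum_const, Finset.card_univ, nsmul_eq_mul, ← hc]
        show _ - c * ((∑ b, H (Fin.cons b t)) / c) = 0
        field_simp
        ring
      have h2 : ∀ b, (H (Fin.cons b t) - M) ^ 2 = (H (Fin.cons b t) - G t) ^ 2 +
          (2 * (G t - M)) * (H (Fin.cons b t) - G t) + (G t - M) ^ 2 := by
        intro b; ring
      simp only [h2]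
      rw [Finset.sum_add_distrib, Finset.sum_add_distrib, ← Finset.mul_sum, h1, mul_zero, add_zero,
        Finset.sum_const, Finset.card_univ, nsmul_eq_mul, ← hc]
    have hsum : ∑ t, (H t - M) ^ 2 = ∑ t : Fin m → B, ∑ b, (H (Fin.cons b t) - M) ^ 2 := by
      rw [← (Fin.consEquiv (fun _ : Fin (m + 1) => B)).sum_comp, Fintype.sum_prod_type_right]
      rfl
    rw [hsum]
    simp only [hsplit]
    rw [Finset.sum_add_distrib, ← Finset.mul_sum]
    have h3 : ∑ t : Fin m → B, ∑ b, (H (Fin.cons b t) - G t) ^ 2 ≤ c ^ m * (c * κ ^ 2) := by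
      calc ∑ t : Fin m → B, ∑ b, (H (Fin.cons b t) - G t) ^ 2
          ≤ ∑ _t : Fin m → B, ∑ _b : B, κ ^ 2 := by
            refine Finset.sum_le_sum fun t _ => Finset.sum_le_sum fun b _ => ?_
            exact sq_le_sq' (abs_le.1 (hGH b t)).1 (abs_le.1 (hGH b t)).2
        _ = c ^ m * (c * κ ^ 2) := by
            rw [Finset.sum_const, Finset.sum_const, Finset.card_univ, Finset.card_univ,
              nsmul_eq_mul, nsmul_eq_mul, Fintype.card_fun, Fintype.card_fin, hc]
            push_cast
            ring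
    have h4 : c * ∑ t, (G t - M) ^ 2 ≤ c * (m * κ ^ 2 * c ^ m) := by gcongr
    push_cast
    calc _ ≤ c ^ m * (c * κ ^ 2) + c * (m * κ ^ 2 * c ^ m) := add_le_add h3 h4
      _ = _ := by ring

end Pool.Agent.W335.EA
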