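import Mathlib
import Pool.Agent.Helper436.SM.RF1

/-!
# Local lifts along a finite quotient

Let `q : K → Q` be a homomorphism which is injective on a large finite set. Then for every small
subset `A` of `Q` there is a map `F : Q → K` with `F (q x * g) = x * F g` for all `g ∈ A` and all `x`
in a given finite set `S`.
-/

set_option autoImplicit false

namespace Pool.Agent.W335.EA

open scoped Pointwise

variable {K : Type} [Group K] [DecidableEq K]

/-- The increasing sequence of finite sets. -/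
def ball (S : Finset K) : ℕ → Finset K
  | 0 => {1}
  | n + 1 => ball S n ∪ ball S n * ((insert 1 S * ball S n)⁻¹ * (insert 1 S * ball S n))

theorem ball_mono (S : Finset K) {i j : ℕ} (h : i ≤ j) : ball S i ⊆ ball S j := by
  induction h with
  | refl => exact Finset.Subset.refl _
  | step _ ih => exact ih.trans Finset.subset_union_left

/-- Covering by few well separated points. -/
theorem exists_reps (S : Finset K) {Q : Type} [Group Q] [DecidableEq Q] (q : K →* Q)
    (A : Finset Q) : ∀ (n : ℕ) (B : Finset Q) (j : ℕ), B.card ≤ n → B.Nonempty →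
    (∀ g ∈ A, ∃ b ∈ B, ∃ β ∈ ball S j, g = q β * b) →
    ∃ (C : Finset Q) (i : ℕ), i ≤ j + n ∧
      (∀ g ∈ A, ∃ b ∈ C, ∃ β ∈ ball S i, g = q β * b) ∧
      (∀ b ∈ C, ∀ b' ∈ C, ∀ w ∈ insert 1 S * ball S i, ∀ w' ∈ insert 1 S * ball S i,
        q w * b = q w' * b' → b = b') := by
  intro n
  induction n with
  | zero =>
    intro B j h0 hne _
    have := hne.card_pos
    omega
  | succ n ih =>
    intro B j hB hne hcov
    by_cases hsep : ∀ b ∈ B, ∀ b' ∈ B, ∀ w ∈ insert 1 S * ball S j, ∀ w' ∈ insert 1 S * ball S j,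
        q w * b = q w' * b' → b = b'
    · exact ⟨B, j, by omega, hcov, hsep⟩
    · push Not at hsep
      obtain ⟨b, hb, b', hb', w, hw, w', hw', heq, hbb⟩ := hsep
      obtain ⟨C, i, hi, h1, h2⟩ := ih (B.erase b') (j + 1)
        (by rw [Finset.card_erase_of_mem hb']; omega)
        ⟨b, Finset.mem_erase.2 ⟨hbb, hb⟩⟩ (by
          intro g hg
          obtain ⟨c, hc, β, hβ, hgc⟩ := hcov g hg
          by_cases hcb : c = b'
          · subst hcb
            refine ⟨b, Finset.mem_erase.2 ⟨hbb, hb⟩, β * (w'⁻¹ * w), ?_, ?_⟩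
            · refine Finset.mem_union_right _ (Finset.mul_mem_mul hβ
                (Finset.mul_mem_mul (Finset.inv_mem_inv hw') hw))
            · rw [hgc, map_mul, map_mul, map_inv, mul_assoc, mul_assoc]
              congr 1
              rw [heq, inv_mul_cancel_left]
          · exact ⟨c, Finset.mem_erase.2 ⟨hcb, hc⟩, β, ball_mono S (Nat.le_succ j) hβ, hgc⟩)
      exact ⟨C, i, by omega, h1, h2⟩

/-- The lift. -/
theorem exists_lift (S : Finset K) (R : ℕ) : ∃ Z : Finset K, (1 : K) ∉ Z ∧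
    ∀ (Q : Type) [Group Q] (q : K →* Q), (∀ z ∈ Z, q z ≠ 1) →
      ∀ A : Finset Q, A.card ≤ R → ∃ F : Q → K, ∀ g ∈ A, ∀ x ∈ S, F (q x * g) = x * F g := by
  classical
  refine ⟨((insert 1 S * ball S R)⁻¹ * (insert 1 S * ball S R)).erase 1,
    Finset.notMem_erase _ _, ?_⟩
  intro Q _ q hq A hA
  rcases A.eq_empty_or_nonempty with rfl | hne
  · exact ⟨fun _ => 1, fun g hg => absurd hg (Finset.notMem_empty _)⟩
  obtain ⟨C, i, hi, hcov, hsep⟩ := exists_reps S q A R A 0 hA hne (by
    intro g hg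
    exact ⟨g, hg, 1, by simp [ball], by simp⟩)
  have hi' : i ≤ R := by omega
  have hsub : insert 1 S * ball S i ⊆ insert 1 S * ball S R :=
    Finset.mul_subset_mul_left (ball_mono S hi')
  have hinj : ∀ w ∈ insert 1 S * ball S i, ∀ w' ∈ insert 1 S * ball S i, q w = q w' → w = w' := by
    intro w hw w' hw' h
    by_contra hne'
    refine hq (w⁻¹ * w') (Finset.mem_erase.2 ⟨?_, Finset.mul_mem_mul
      (Finset.inv_mem_inv (hsub hw)) (hsub hw')⟩) ?_
    · intro h1
      exact hne' (inv_mul_eq_one.1 h1)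
    · rw [map_mul, map_inv, h, inv_mul_cancel]
  let P : Q → K → Prop := fun h w => w ∈ insert 1 S * ball S i ∧ ∃ b ∈ C, q w * b = h
  have huniq : ∀ h w w', P h w → P h w' → w = w' := by
    rintro h w w' ⟨hw, b, hb, e⟩ ⟨hw', b', hb', e'⟩
    have h1 := hsep b hb b' hb' w hw w' hw' (e.trans e'.symm)
    subst h1
    exact hinj w hw w' hw' (mul_right_cancel (e.trans e'.symm))
  refine ⟨fun h => Classical.epsilon (P h), fun g hg x hx => ?_⟩
  obtain ⟨b, hb, β, hβ, hgb⟩ := hcov g hg
  have h1 : P g β := ⟨by simpa using Finset.mul_mem_mul (Finset.mem_insert_self 1 S) hβ, b, hb,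
    hgb.symm⟩
  have h2 : P (q x * g) (x * β) := ⟨Finset.mul_mem_mul (Finset.mem_insert_of_mem hx) hβ, b, hb, by
    rw [hgb, map_mul, mul_assoc]⟩
  show Classical.epsilon (P (q x * g)) = x * Classical.epsilon (P g)
  rw [huniq _ _ _ (Classical.epsilon_spec ⟨_, h2⟩) h2, huniq _ _ _ (Classical.epsilon_spec ⟨_, h1⟩) h1]

/-- A finite quotient of the free group in which finitely many given elements survive. -/
theorem exists_quotient (Z : Finset (FreeGroup ℕ)) (hZ : (1 : FreeGroup ℕ) ∉ Z) :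
    ∃ (Q : Type) (_ : Group Q) (_ : Finite Q) (q : FreeGroup ℕ →* Q), ∀ z ∈ Z, q z ≠ 1 := by
  classical
  have h : ∀ z : Z, ∃ (m : ℕ) (e : ℕ → Equiv.Perm (Fin m)), FreeGroup.lift e z.1 ≠ 1 := by
    intro z
    exact Pool.Agent.Helper436.SM.free_rf z.1 fun h => hZ (h ▸ z.2)
  choose m e he using h
  refine ⟨∀ z : Z, Equiv.Perm (Fin (m z)), inferInstance, inferInstance,
    MonoidHom.pi fun z => FreeGroup.lift (e z), fun z hz hz1 => he ⟨z, hz⟩ ?_⟩
  exact congrFun hz1 ⟨z, hz⟩

end Pool.Agent.W335.EA
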