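import Mathlib

/-!
# Bi-invariant norms on groups of functions

For a norm `ν` on `K` bounded by `D` we define a bi-invariant norm on the group of functions from the
subsets of `Q` with at most `R` elements to `K`: a function is small if it is small on all sets that
contain a given small set.
-/

set_option autoImplicit false

namespace Pool.Agent.W335.EA

/-- A conjugation invariant (pseudo-)norm on a group. -/
structure IsNorm (K : Type) [Group K] (ν : K → ℝ) : Prop where
  one : ν 1 = 0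
  nonneg : ∀ a, 0 ≤ ν a
  inv : ∀ a, ν a⁻¹ = ν a
  mul : ∀ a b, ν (a * b) ≤ ν a + ν b
  conj : ∀ a b, ν (b * a * b⁻¹) = ν a

/-- The subsets with at most `R` elements. -/
abbrev Sub (Q : Type) (R : ℕ) : Type := {A : Finset Q // A.card ≤ R}

section

variable {K : Type} [Group K] {Q : Type} [Finite Q] (ν : K → ℝ) (D : ℝ) {R : ℕ}

/-- The norm. -/
noncomputable def nX (f : Sub Q R → K) : ℝ := by
  classical
  exact min D (⨅ I : Sub Q R, ((I.1.card : ℝ) * (D / R) +
    ⨆ A : Sub Q R, if I.1 ⊆ A.1 then ν (f A) else 0))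

omit [Group K] in
theorem nX_le_D (f : Sub Q R → K) : nX ν D f ≤ D := min_le_left _ _

instance : Finite (Sub Q R) := inferInstance

instance : Nonempty (Sub Q R) := ⟨⟨∅, by simp⟩⟩

omit [Group K] in
theorem nX_le (f : Sub Q R → K) (I : Sub Q R) (r : ℝ) (hr : 0 ≤ r)
    (h : ∀ A : Sub Q R, I.1 ⊆ A.1 → ν (f A) ≤ r) : nX ν D f ≤ I.1.card * (D / R) + r := by
  classical
  unfold nX
  refine (min_le_right _ _).trans ((ciInf_le (Set.finite_range _).bddBelow I).trans ?_)
  refine add_le_add le_rfl (ciSup_le fun A => ?_)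
  split_ifs with hA
  · convert h A hA
  · exact hr

omit [Group K] in
theorem nX_cases (hν : ∀ a, 0 ≤ ν a) (f : Sub Q R → K) : nX ν D f = D ∨
    ∃ (I : Sub Q R) (r : ℝ), 0 ≤ r ∧ (∀ A : Sub Q R, I.1 ⊆ A.1 → ν (f A) ≤ r) ∧
      nX ν D f = I.1.card * (D / R) + r := by
  classical
  unfold nX
  rcases min_choice D (⨅ I : Sub Q R, ((I.1.card : ℝ) * (D / R) +
    ⨆ A : Sub Q R, if I.1 ⊆ A.1 then ν (f A) else 0)) with h | h
  · left; convert h
  · right
    obtain ⟨I, hI⟩ := exists_eq_ciInf_of_finite (f := fun I : Sub Q R =>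
      ((I.1.card : ℝ) * (D / R) + ⨆ A : Sub Q R, if I.1 ⊆ A.1 then ν (f A) else 0))
    have hle : ∀ A : Sub Q R, (if I.1 ⊆ A.1 then ν (f A) else 0) ≤
        ⨆ A : Sub Q R, if I.1 ⊆ A.1 then ν (f A) else 0 := fun A =>
      le_ciSup (f := fun A : Sub Q R => if I.1 ⊆ A.1 then ν (f A) else 0)
        (Set.finite_range _).bddAbove A
    refine ⟨I, ⨆ A : Sub Q R, if I.1 ⊆ A.1 then ν (f A) else 0, ?_, fun A hA => ?_, ?_⟩
    · refine le_trans ?_ (hle I)
      rw [if_pos (Finset.Subset.refl _)]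
      exact hν _
    · refine le_trans ?_ (hle A)
      rw [if_pos hA]
    · convert h.trans hI.symm using 2

variable {ν D}

theorem nX_norm (hν : IsNorm K ν) (hD : 0 ≤ D) (hR : 1 ≤ R) :
    IsNorm (Sub Q R → K) (nX ν D) := by
  classical
  have hR' : (0 : ℝ) < R := by exact_mod_cast hR
  have hc : 0 ≤ D / R := by positivity
  have hnn : ∀ f : Sub Q R → K, 0 ≤ nX ν D f := by
    intro f
    rcases nX_cases ν D hν.nonneg f with h | ⟨I, r, hr, -, h⟩
    · rw [h]; exact hD
    · rw [h]; positivity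
  refine ⟨?_, hnn, fun f => ?_, fun f g => ?_, fun f g => ?_⟩
  · refine le_antisymm ?_ (hnn _)
    have := nX_le ν D (1 : Sub Q R → K) ⟨∅, by simp⟩ 0 le_rfl (fun A _ => by
      rw [Pi.one_apply, hν.one])
    simpa using this
  · unfold nX
    simp only [Pi.inv_apply, hν.inv]
  · rcases nX_cases ν D hν.nonneg f with hf | ⟨I, r, hr, h1, hf⟩
    · have := nX_le_D ν D (f * g)
      have := hnn g
      linarith
    · rcases nX_cases ν D hν.nonneg g with hg | ⟨I', r', hr', h1', hg⟩
      · have := nX_le_D ν D (f * g)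
        have := hnn f
        linarith
      · by_cases hcard : (I.1 ∪ I'.1).card ≤ R
        · have h2 := nX_le ν D (f * g) ⟨I.1 ∪ I'.1, hcard⟩ (r + r') (by positivity) (fun A hA => by
            rw [Pi.mul_apply]
            exact (hν.mul _ _).trans (add_le_add
              (h1 A (Finset.subset_union_left.trans hA))
              (h1' A (Finset.subset_union_right.trans hA))))
          have h3 : ((I.1 ∪ I'.1).card : ℝ) ≤ I.1.card + I'.1.card := by
            exact_mod_cast Finset.card_union_le _ _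
          have h4 : ((I.1 ∪ I'.1).card : ℝ) * (D / R) ≤ (I.1.card + I'.1.card) * (D / R) := by
            gcongr
          rw [hf, hg]
          simp only at h2
          linarith
        · have h2 := nX_le_D ν D (f * g)
          have h3 : (R : ℝ) ≤ I.1.card + I'.1.card := by
            have := Finset.card_union_le I.1 I'.1
            exact_mod_cast (by omega : R ≤ I.1.card + I'.1.card)
          have h4 : (R : ℝ) * (D / R) ≤ (I.1.card + I'.1.card) * (D / R) := by gcongr
          have h5 : (R : ℝ) * (D / R) = D := by field_simp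
          rw [hf, hg]
          linarith
  · unfold nX
    simp only [Pi.mul_apply, Pi.inv_apply, hν.conj]

theorem nX_const (hν : IsNorm K ν) (hD : ∀ a, ν a ≤ D) (x : K) :
    nX ν D (fun _ : Sub Q R => x) = ν x := by
  have hD0 : 0 ≤ D := (hν.nonneg 1).trans (hD 1)
  apply le_antisymm
  · have := nX_le ν D (fun _ : Sub Q R => x) ⟨∅, by simp⟩ (ν x) (hν.nonneg x) (fun A _ => le_rfl)
    simpa using this
  · rcases nX_cases ν D hν.nonneg (fun _ : Sub Q R => x) with h | ⟨I, r, hr, h1, h⟩
    · rw [h]; exact hD x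
    · rw [h]
      have h2 := h1 I (Finset.Subset.refl _)
      have h3 : (0 : ℝ) ≤ I.1.card * (D / R) := by positivity
      linarith

theorem nX_star (hD : 0 ≤ D) (hν : IsNorm K ν) (hR : 1 ≤ R) (f : Sub Q R → K) (g : Q)
    (h : ∀ A : Sub Q R, g ∈ A.1 → f A = 1) : nX ν D f ≤ D / R := by
  have := nX_le ν D f ⟨{g}, by simpa using hR⟩ 0 le_rfl (fun A hA => by
    rw [h A (Finset.singleton_subset_iff.1 hA), hν.one])
  simpa using this

end

section

variable {K : Type} [Group K] (ν : K → ℝ) (m : ℕ)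

/-- The average norm on a power. -/
noncomputable def nZ (f : Fin m → K) : ℝ := (∑ z, ν (f z)) / m

variable {ν m}

theorem nZ_norm (hν : IsNorm K ν) : IsNorm (Fin m → K) (nZ ν m) := by
  refine ⟨?_, fun f => ?_, fun f => ?_, fun f g => ?_, fun f g => ?_⟩
  · simp [nZ, hν.one]
  · unfold nZ
    exact div_nonneg (Finset.sum_nonneg fun z _ => hν.nonneg _) (Nat.cast_nonneg m)
  · simp only [nZ, Pi.inv_apply, hν.inv]
  · unfold nZ
    rw [← add_div, ← Finset.sum_add_distrib]
    gcongr with z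
    exact hν.mul _ _
  · simp only [nZ, Pi.mul_apply, Pi.inv_apply, hν.conj]

theorem nZ_const (hm : 1 ≤ m) (x : K) : nZ ν m (fun _ => x) = ν x := by
  have : (m : ℝ) ≠ 0 := by positivity
  unfold nZ
  rw [Finset.sum_const, Finset.card_univ, Fintype.card_fin, nsmul_eq_mul]
  field_simp

theorem nZ_le (hm : 1 ≤ m) (f : Fin m → K) (r : ℝ) (h : ∀ z, ν (f z) ≤ r) : nZ ν m f ≤ r := by
  have hm' : (0 : ℝ) < m := by exact_mod_cast hm
  unfold nZ
  rw [div_le_iff₀ hm']
  calc ∑ z, ν (f z) ≤ ∑ _z : Fin m, r := Finset.sum_le_sum fun z _ => h z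
    _ = r * m := by rw [Finset.sum_const, Finset.card_univ, Fintype.card_fin, nsmul_eq_mul, mul_comm]

theorem nZ_one_coord (hν : IsNorm K ν) (f : Fin m → K) (z₀ : Fin m) (r : ℝ)
    (h : ∀ z, z ≠ z₀ → f z = 1) (hr : ν (f z₀) ≤ r) : nZ ν m f ≤ r / m := by
  unfold nZ
  rw [Finset.sum_eq_single z₀ (fun z _ hz => by rw [h z hz, hν.one]) (fun h => absurd (Finset.mem_univ _) h)]
  gcongr

end

end Pool.Agent.W335.EA
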