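import Mathlib
import Pool.Agent.W335.EA.Lift
import Pool.Agent.W335.EA.Norm
import Pool.Agent.W335.EA.Conc

/-!
# An overgroup with a concentrated, almost equivariant finite set
-/

set_option autoImplicit false

namespace Pool.Agent.W335.EA

theorem key (ν : FreeGroup ℕ → ℝ) (hν : IsNorm (FreeGroup ℕ) ν) (D : ℝ) (hD : 0 < D)
    (hνD : ∀ a, ν a ≤ D) (S : Finset (FreeGroup ℕ)) (k : ℕ) (ε : ℝ) (hε : 0 < ε) :
    ∃ (L : Type) (_ : Group L) (nL : L → ℝ) (_ : IsNorm L nL) (_ : ∀ a, nL a ≤ D)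
      (c : FreeGroup ℕ →* L) (_ : ∀ x, nL (c x) = ν x) (Ω : Type) (_ : Finite Ω) (_ : Nonempty Ω)
      (v : Ω → L) (act : FreeGroup ℕ → Ω → Ω) (τ : ℝ), 0 < τ ∧
      (∀ x ∈ S, ∀ t, nL ((c x * v t)⁻¹ * v (act x t)) ≤ ε) ∧
      ∀ H : Fin k → Ω → ℝ, (∀ j t t', |H j t - H j t'| ≤ nL ((v t)⁻¹ * v t') + τ) →
        ∃ t, ∀ x ∈ S, ∀ j, |H j (act x t) - H j t| ≤ ε := by
  classical
  -- the number of steps
  obtain ⟨R, hR⟩ := exists_nat_gt (D / ε)
  have hR0 : (0 : ℝ) < R := lt_of_le_of_lt (by positivity) hR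
  have hR1 : 1 ≤ R := by exact_mod_cast (by exact_mod_cast hR0 : 0 < R)
  have hDR : D / R ≤ ε := by
    rw [div_lt_iff₀ hε] at hR
    rw [div_le_iff₀ hR0]
    linarith
  obtain ⟨Z, hZ1, hZ⟩ := exists_lift S R
  obtain ⟨Q, _, _, q, hq⟩ := exists_quotient Z hZ1
  let _ := Fintype.ofFinite Q
  have hF := hZ Q q hq
  choose! F hF using hF
  -- the number of copies
  obtain ⟨m, hm⟩ := exists_nat_gt (k * (S.card + 1) * (4 * D ^ 2) / (ε / 2) ^ 2)
  have hm0 : (0 : ℝ) < m := lt_of_le_of_lt (by positivity) hm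
  have hm1 : 1 ≤ m := by exact_mod_cast (by exact_mod_cast hm0 : 0 < m)
  have hX : IsNorm (Sub Q R → FreeGroup ℕ) (nX ν D) := nX_norm hν hD.le hR1
  have hL : IsNorm (Fin m → Sub Q R → FreeGroup ℕ) (nZ (nX ν D) m) := nZ_norm hX
  let w : Q → Sub Q R → FreeGroup ℕ := fun g A => F A.1 g
  let act : FreeGroup ℕ → (Fin m → Q) → (Fin m → Q) := fun x t z => q x * t z
  let v : (Fin m → Q) → (Fin m → Sub Q R → FreeGroup ℕ) := fun t z => w (t z)
  have hcoord : ∀ (t : Fin m → Q) (z : Fin m) (b : Q),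
      nZ (nX ν D) m ((v (Function.update t z b))⁻¹ * v t) ≤ D / m := by
    intro t z b
    refine nZ_one_coord hX _ z D (fun z' hz' => ?_) (nX_le_D _ _ _)
    show (w (Function.update t z b z'))⁻¹ * w (t z') = 1
    rw [Function.update_of_ne hz', inv_mul_cancel]
  refine ⟨Fin m → Sub Q R → FreeGroup ℕ, inferInstance, nZ (nX ν D) m, hL,
    fun a => nZ_le hm1 a D fun z => nX_le_D _ _ _,
    { toFun := fun x _ _ => x, map_one' := rfl, map_mul' := fun _ _ => rfl },
    fun x => ?_, Fin m → Q, inferInstance, inferInstance, v, act, D / m, by positivity, ?_, ?_⟩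
  · show nZ (nX ν D) m (fun _ _ => x) = ν x
    rw [nZ_const hm1, nX_const hν hνD]
  · intro x hx t
    refine nZ_le hm1 _ ε fun z => ?_
    refine le_trans (nX_star hD.le hν hR1 _ (t z) fun A hA => ?_) hDR
    show (x * F A.1 (t z))⁻¹ * F A.1 (q x * t z) = 1
    rw [hF A.1 A.2 (t z) hA x hx, inv_mul_cancel]
  · intro H hH
    have hdiff : ∀ j t z b, |H j (Function.update t z b) - H j t| ≤ 2 * D / m := by
      intro j t z b
      refine (hH j _ _).trans ?_
      have := hcoord t z b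
      have e : 2 * D / (m : ℝ) = D / m + D / m := by ring
      rw [e]
      linarith
    have hM : ∀ j, ∃ M : ℝ, ∑ t, (H j t - M) ^ 2 ≤
        m * (2 * D / m) ^ 2 * (Fintype.card Q : ℝ) ^ m := fun j =>
      conc Q (by positivity) m (H j) (hdiff j)
    choose M hM using hM
    set W : ℝ := (Fintype.card Q : ℝ) ^ m with hW
    have hW0 : 0 < W := by
      rw [hW]
      have : 0 < Fintype.card Q := Fintype.card_pos
      positivity
    have hcardΩ : (Fintype.card (Fin m → Q) : ℝ) = W := by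
      rw [Fintype.card_fun, Fintype.card_fin, hW]
      push_cast
      rfl
    have hbij : ∀ x, Function.Bijective (act x) := by
      intro x
      refine ⟨fun t t' h => ?_, fun t => ⟨fun z => (q x)⁻¹ * t z, ?_⟩⟩
      · funext z
        exact mul_left_cancel (congrFun h z)
      · funext z
        show q x * ((q x)⁻¹ * t z) = t z
        rw [mul_inv_cancel_left]
    have hact : ∀ x j, ∑ t, (H j (act x t) - M j) ^ 2 = ∑ t, (H j t - M j) ^ 2 := fun x j =>
      Function.Bijective.sum_comp (hbij x) (fun t => (H j t - M j) ^ 2)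
    -- averaging
    have htot : ∑ t, ∑ j, ∑ x ∈ insert 1 S, (H j (act x t) - M j) ^ 2 <
        ∑ _t : Fin m → Q, (ε / 2) ^ 2 := by
      have h1 : ∑ t, ∑ j, ∑ x ∈ insert 1 S, (H j (act x t) - M j) ^ 2 =
          ∑ j, ∑ x ∈ insert 1 S, ∑ t, (H j (act x t) - M j) ^ 2 := by
        rw [Finset.sum_comm]
        refine Finset.sum_congr rfl fun j _ => ?_
        rw [Finset.sum_comm]
      rw [h1]
      have h2 : ∑ j, ∑ x ∈ insert 1 S, ∑ t, (H j (act x t) - M j) ^ 2 ≤
          ∑ _j : Fin k, ∑ _x ∈ insert 1 S, m * (2 * D / m) ^ 2 * W := by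
        refine Finset.sum_le_sum fun j _ => Finset.sum_le_sum fun x _ => ?_
        rw [hact]
        exact hM j
      refine lt_of_le_of_lt h2 ?_
      rw [Finset.sum_const, Finset.sum_const, Finset.sum_const, Finset.card_univ, Finset.card_univ,
        Fintype.card_fin, nsmul_eq_mul, nsmul_eq_mul, nsmul_eq_mul, hcardΩ]
      have h3 : ((insert 1 S).card : ℝ) ≤ S.card + 1 := by
        exact_mod_cast Finset.card_insert_le 1 S
      have h4 : (m : ℝ) * (2 * D / m) ^ 2 = 4 * D ^ 2 / m := by field_simp; ring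
      rw [h4]
      have h5 : (k : ℝ) * (((insert 1 S).card : ℝ) * (4 * D ^ 2 / m * W)) ≤
          k * ((S.card + 1) * (4 * D ^ 2 / m * W)) := by gcongr
      refine lt_of_le_of_lt h5 ?_
      have h6 : (k : ℝ) * (S.card + 1) * (4 * D ^ 2) / m < (ε / 2) ^ 2 := by
        rw [div_lt_iff₀ (by positivity)] at hm
        rw [div_lt_iff₀ hm0]
        linarith
      calc (k : ℝ) * ((S.card + 1) * (4 * D ^ 2 / m * W)) =
          W * (k * (S.card + 1) * (4 * D ^ 2) / m) := by ring
        _ < W * (ε / 2) ^ 2 := by gcongr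
    obtain ⟨t, -, ht⟩ := Finset.exists_lt_of_sum_lt htot
    refine ⟨t, fun x hx j => ?_⟩
    have hone : ∀ y ∈ insert 1 S, |H j (act y t) - M j| ≤ ε / 2 := by
      intro y hy
      have h1 : (H j (act y t) - M j) ^ 2 ≤
          ∑ j, ∑ x ∈ insert 1 S, (H j (act x t) - M j) ^ 2 := by
        refine le_trans ?_ (Finset.single_le_sum
          (f := fun j => ∑ x ∈ insert 1 S, (H j (act x t) - M j) ^ 2)
          (fun j _ => Finset.sum_nonneg fun x _ => sq_nonneg _) (Finset.mem_univ j))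
        exact Finset.single_le_sum (f := fun x => (H j (act x t) - M j) ^ 2)
          (fun x _ => sq_nonneg _) hy
      exact abs_le_of_sq_le_sq (h1.trans ht.le) (by positivity)
    have h1 := hone 1 (Finset.mem_insert_self _ _)
    have h2 := hone x (Finset.mem_insert_of_mem hx)
    have h3 : act 1 t = t := by
      funext z
      show q 1 * t z = t z
      rw [map_one, one_mul]
    rw [h3] at h1
    have h4 := abs_le.1 h1
    have h5 := abs_le.1 h2
    exact abs_le.2 ⟨by linarith, by linarith⟩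

end Pool.Agent.W335.EA
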