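import Mathlib
import Pool.Agent.W335.EA.Key
import Pool.Agent.W335.EA.Crit

/-!
# Metrics with the criterion are dense
-/

set_option autoImplicit false

namespace Pool.Agent.W335.EA

open Set Filter Topology

/-- A word is determined by finitely many generators. -/
theorem exists_support (a : FreeGroup ℕ) : ∃ n : ℕ, ∀ (L : Type) [Group L]
    (θ θ' : FreeGroup ℕ →* L), (∀ j < n, θ (FreeGroup.of j) = θ' (FreeGroup.of j)) →
      θ a = θ' a := by
  induction a using FreeGroup.induction_on with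
  | C1 => exact ⟨0, fun L _ θ θ' _ => by rw [map_one, map_one]⟩
  | of j => exact ⟨j + 1, fun L _ θ θ' h => h j (Nat.lt_succ_self j)⟩
  | inv_of j h =>
    exact ⟨j + 1, fun L _ θ θ' h => by rw [map_inv, map_inv, h j (Nat.lt_succ_self j)]⟩
  | mul a b ha hb =>
    obtain ⟨n, hn⟩ := ha
    obtain ⟨m, hm⟩ := hb
    refine ⟨max n m, fun L _ θ θ' h => ?_⟩
    rw [map_mul, map_mul, hn L θ θ' fun j hj => h j (lt_of_lt_of_le hj (le_max_left _ _)),
      hm L θ θ' fun j hj => h j (lt_of_lt_of_le hj (le_max_right _ _))]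

theorem exists_support_finset (A : Finset (FreeGroup ℕ)) : ∃ n : ℕ, ∀ a ∈ A, ∀ (L : Type) [Group L]
    (θ θ' : FreeGroup ℕ →* L), (∀ j < n, θ (FreeGroup.of j) = θ' (FreeGroup.of j)) →
      θ a = θ' a := by
  classical
  induction A using Finset.induction_on with
  | empty => exact ⟨0, by simp⟩
  | insert a s _ ih =>
    obtain ⟨n, hn⟩ := ih
    obtain ⟨m, hm⟩ := exists_support a
    refine ⟨max n m, fun b hb L _ θ θ' h => ?_⟩
    rcases Finset.mem_insert.1 hb with rfl | hb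
    · exact hm L θ θ' fun j hj => h j (lt_of_lt_of_le hj (le_max_right _ _))
    · exact hn b hb L θ θ' fun j hj => h j (lt_of_lt_of_le hj (le_max_left _ _))

/-- A norm gives a bi-invariant pseudometric. -/
theorem isBI_of_norm {K : Type} [Group K] {ν : K → ℝ} (hν : IsNorm K ν) :
    IsBI fun g h => ν (g⁻¹ * h) := by
  refine ⟨fun g => ?_, fun g h => ?_, fun g h k => ?_, fun g h k => ?_, fun g h k => ?_⟩
  · show ν (g⁻¹ * g) = 0
    rw [inv_mul_cancel, hν.one]
  · show ν (g⁻¹ * h) = ν (h⁻¹ * g)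
    rw [← hν.inv]
    congr 1
    group
  · show ν (g⁻¹ * k) ≤ ν (g⁻¹ * h) + ν (h⁻¹ * k)
    have e : g⁻¹ * k = (g⁻¹ * h) * (h⁻¹ * k) := by group
    rw [e]
    exact hν.mul _ _
  · show ν ((k * g)⁻¹ * (k * h)) = ν (g⁻¹ * h)
    congr 1
    group
  · show ν ((g * k)⁻¹ * (h * k)) = ν (g⁻¹ * h)
    rw [← hν.conj (g⁻¹ * h) k⁻¹]
    congr 1
    group

/-- A bi-invariant pseudometric gives a norm. -/
theorem norm_of_isBI {K : Type} [Group K] {d : K → K → ℝ} (hd : IsBI d) {D : ℝ} (hD : 0 ≤ D) :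
    IsNorm K fun a => min (d 1 a) D := by
  have hinv : ∀ a, d 1 a⁻¹ = d 1 a := by
    intro a
    have := hd.left 1 a⁻¹ a
    rw [mul_one, mul_inv_cancel] at this
    rw [← this, hd.symm]
  refine ⟨?_, fun a => le_min (hd.nonneg _ _) hD, fun a => by
    show min (d 1 a⁻¹) D = min (d 1 a) D
    rw [hinv], fun a b => ?_, fun a b => ?_⟩
  · show min (d 1 1) D = 0
    rw [hd.self, min_eq_left hD]
  · show min (d 1 (a * b)) D ≤ min (d 1 a) D + min (d 1 b) D
    have h1 : d 1 (a * b) ≤ d 1 a + d 1 b := by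
      have h2 := hd.tri 1 a (a * b)
      have h3 := hd.left 1 b a
      rw [mul_one] at h3
      linarith
    have ha := hd.nonneg 1 a
    have hb := hd.nonneg 1 b
    rcases le_total (d 1 a) D with h | h <;> rcases le_total (d 1 b) D with h' | h'
    · rw [min_eq_left h, min_eq_left h']; exact (min_le_left _ _).trans h1
    · rw [min_eq_left h, min_eq_right h']; exact (min_le_right _ _).trans (by linarith)
    · rw [min_eq_right h, min_eq_left h']; exact (min_le_right _ _).trans (by linarith)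
    · rw [min_eq_right h, min_eq_right h']; exact (min_le_right _ _).trans (by linarith)
  · show min (d 1 (b * a * b⁻¹)) D = min (d 1 a) D
    congr 1
    have h1 := hd.right 1 (b * a * b⁻¹) b
    have h2 := hd.left 1 a b
    rw [one_mul, inv_mul_cancel_right] at h1
    rw [mul_one] at h2
    rw [← h1, h2]

/-- Every bi-invariant metric can be approximated by metrics with the criterion. -/
theorem approx (d₀ : FreeGroup ℕ → FreeGroup ℕ → ℝ) (hd₀ : IsBI d₀)
    (hpos : ∀ g h, d₀ g h = 0 → g = h) (D : ℝ) (hD : 1 ≤ D)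
    (A : Finset (FreeGroup ℕ × FreeGroup ℕ)) (hA : ∀ p ∈ A, d₀ p.1 p.2 ≤ D) (η : ℝ) (hη : 0 < η)
    (F : Finset (FreeGroup ℕ)) (k : ℕ) (ε : ℝ) (hε : 0 < ε) :
    ∃ d : FreeGroup ℕ → FreeGroup ℕ → ℝ, IsBI d ∧ (∀ g h, d g h = 0 → g = h) ∧
      (∀ g h, d g h ≤ D) ∧ (∀ p ∈ A, |d p.1 p.2 - d₀ p.1 p.2| < η) ∧ Crit d F k ε := by
  classical
  have hD0 : 0 < D := by linarith
  set ν : FreeGroup ℕ → ℝ := fun a => min (d₀ 1 a) D with hνdef
  have hν : IsNorm (FreeGroup ℕ) ν := norm_of_isBI hd₀ hD0.le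
  obtain ⟨L, _, nL, hL, hLD, c, hc, Ω, _, _, v, act, τ, hτ, hact, hconc⟩ :=
    key ν hν D hD0 (fun a => min_le_right _ _) F k (ε / 4) (by positivity)
  -- a finite set of generators
  obtain ⟨n, hn⟩ := exists_support_finset (F ∪ A.image (fun p => p.1⁻¹ * p.2))
  obtain ⟨e, he⟩ := exists_surjective_nat Ω
  let θ : FreeGroup ℕ →* L :=
    FreeGroup.lift fun j => if j < n then c (FreeGroup.of j) else v (e (j - n))
  have hθc : ∀ a ∈ F ∪ A.image (fun p => p.1⁻¹ * p.2), θ a = c a := by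
    intro a ha
    refine hn a ha L θ c fun j hj => ?_
    show FreeGroup.lift _ (FreeGroup.of j) = _
    rw [FreeGroup.lift_apply_of, if_pos hj]
  let gen : Ω → FreeGroup ℕ := fun t => FreeGroup.of (n + Function.surjInv he t)
  have hgen : ∀ t, θ (gen t) = v t := by
    intro t
    show FreeGroup.lift _ (FreeGroup.of _) = _
    rw [FreeGroup.lift_apply_of, if_neg (by omega), Nat.add_sub_cancel_left, Function.surjInv_eq he]
  -- the new norm
  obtain ⟨δ, hδ0, hδτ, hδε, hδη, hδ1⟩ : ∃ δ : ℝ, 0 < δ ∧ δ ≤ τ ∧ δ ≤ ε / 4 ∧ δ * D < η ∧ δ ≤ 1 := by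
    refine ⟨min (min τ (ε / 4)) (min (η / (2 * D)) 1), by positivity, ?_, ?_, ?_, ?_⟩
    · exact (min_le_left _ _).trans (min_le_left _ _)
    · exact (min_le_left _ _).trans (min_le_right _ _)
    · have h1 : min (min τ (ε / 4)) (min (η / (2 * D)) 1) ≤ η / (2 * D) :=
        (min_le_right _ _).trans (min_le_left _ _)
      calc min (min τ (ε / 4)) (min (η / (2 * D)) 1) * D ≤ η / (2 * D) * D := by gcongr
        _ = η / 2 := by field_simp
        _ < η := by linarith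
    · exact (min_le_right _ _).trans (min_le_right _ _)
  have hν1 : IsNorm (FreeGroup ℕ) fun a => min (d₀ 1 a) 1 := norm_of_isBI hd₀ zero_le_one
  let μ : FreeGroup ℕ → ℝ := fun a => (1 - δ) * nL (θ a) + δ * min (d₀ 1 a) 1
  have hμ : IsNorm (FreeGroup ℕ) μ := by
    refine ⟨?_, fun a => ?_, fun a => ?_, fun a b => ?_, fun a b => ?_⟩
    · show (1 - δ) * nL (θ 1) + δ * min (d₀ 1 1) 1 = 0
      have := hν1.one
      rw [map_one, hL.one, this, mul_zero, mul_zero, add_zero]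
    · have h1 := hL.nonneg (θ a)
      have h2 := hν1.nonneg a
      have h3 : 0 ≤ 1 - δ := by linarith
      exact add_nonneg (mul_nonneg h3 h1) (mul_nonneg hδ0.le h2)
    · show (1 - δ) * nL (θ a⁻¹) + δ * min (d₀ 1 a⁻¹) 1 = _
      have := hν1.inv a
      rw [map_inv, hL.inv, this]
    · have h1 := hL.mul (θ a) (θ b)
      have h2 := hν1.mul a b
      have h3 : 0 ≤ 1 - δ := by linarith
      show (1 - δ) * nL (θ (a * b)) + δ * min (d₀ 1 (a * b)) 1 ≤ _
      rw [map_mul]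
      calc _ ≤ (1 - δ) * (nL (θ a) + nL (θ b)) + δ * (min (d₀ 1 a) 1 + min (d₀ 1 b) 1) := by
            gcongr
        _ = _ := by ring
    · show (1 - δ) * nL (θ (b * a * b⁻¹)) + δ * min (d₀ 1 (b * a * b⁻¹)) 1 = _
      have := hν1.conj a b
      rw [map_mul, map_mul, map_inv, hL.conj, this]
  have hμle : ∀ a, μ a ≤ nL (θ a) + δ := by
    intro a
    have h1 := hL.nonneg (θ a)
    have h2 : min (d₀ 1 a) 1 ≤ 1 := min_le_right _ _
    show (1 - δ) * nL (θ a) + δ * min (d₀ 1 a) 1 ≤ _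
    nlinarith
  refine ⟨fun g h => μ (g⁻¹ * h), isBI_of_norm hμ, fun g h hgh => ?_, fun g h => ?_, fun p hp => ?_,
    ?_⟩
  · have h1 := hL.nonneg (θ (g⁻¹ * h))
    have h2 := hν1.nonneg (g⁻¹ * h)
    have h3 : (1 - δ) * nL (θ (g⁻¹ * h)) + δ * min (d₀ 1 (g⁻¹ * h)) 1 = 0 := hgh
    have h4 : 0 ≤ (1 - δ) * nL (θ (g⁻¹ * h)) := mul_nonneg (by linarith) h1
    have h5 : min (d₀ 1 (g⁻¹ * h)) 1 = 0 := by
      have h6 : δ * min (d₀ 1 (g⁻¹ * h)) 1 ≤ 0 := by linarith
      have h7 : 0 ≤ δ * min (d₀ 1 (g⁻¹ * h)) 1 := mul_nonneg hδ0.le h2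
      have h8 : δ * min (d₀ 1 (g⁻¹ * h)) 1 = 0 := le_antisymm h6 h7
      rcases mul_eq_zero.1 h8 with h | h
      · linarith
      · exact h
    have h6 : d₀ 1 (g⁻¹ * h) = 0 := by
      rcases min_choice (d₀ 1 (g⁻¹ * h)) 1 with h | h
      · rw [← h]; exact h5
      · rw [h] at h5; norm_num at h5
    have h7 := hpos _ _ h6
    exact (inv_mul_eq_one.1 h7.symm)
  · have h1 := hLD (θ (g⁻¹ * h))
    have h2 : min (d₀ 1 (g⁻¹ * h)) 1 ≤ D := (min_le_right _ _).trans hD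
    have h3 : 0 ≤ 1 - δ := by linarith
    calc (1 - δ) * nL (θ (g⁻¹ * h)) + δ * min (d₀ 1 (g⁻¹ * h)) 1 ≤ (1 - δ) * D + δ * D := by gcongr
      _ = D := by ring
  · have h1 : θ (p.1⁻¹ * p.2) = c (p.1⁻¹ * p.2) :=
      hθc _ (Finset.mem_union_right _ (Finset.mem_image_of_mem _ hp))
    have h2 : d₀ 1 (p.1⁻¹ * p.2) = d₀ p.1 p.2 := by
      have := hd₀.left 1 (p.1⁻¹ * p.2) p.1
      rw [mul_one, mul_inv_cancel_left] at this
      exact this.symm
    have h3 : nL (θ (p.1⁻¹ * p.2)) = d₀ p.1 p.2 := by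
      rw [h1, hc]
      show min (d₀ 1 (p.1⁻¹ * p.2)) D = _
      rw [h2, min_eq_left (hA p hp)]
    show |(1 - δ) * nL (θ (p.1⁻¹ * p.2)) + δ * min (d₀ 1 (p.1⁻¹ * p.2)) 1 - d₀ p.1 p.2| < η
    rw [h3, h2]
    have h4 : 0 ≤ d₀ p.1 p.2 := hd₀.nonneg _ _
    have h5 : min (d₀ p.1 p.2) 1 ≤ d₀ p.1 p.2 := min_le_left _ _
    have h6 : 0 ≤ min (d₀ p.1 p.2) 1 := le_min h4 zero_le_one
    have h7 := hA p hp
    have h8 : (1 - δ) * d₀ p.1 p.2 + δ * min (d₀ p.1 p.2) 1 - d₀ p.1 p.2 =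
        -(δ * (d₀ p.1 p.2 - min (d₀ p.1 p.2) 1)) := by ring
    rw [h8, abs_neg, abs_of_nonneg (mul_nonneg hδ0.le (by linarith))]
    calc δ * (d₀ p.1 p.2 - min (d₀ p.1 p.2) 1) ≤ δ * D := by gcongr; linarith
      _ < η := hδη
  · intro h h01 hlip
    obtain ⟨t, ht⟩ := hconc (fun j t => h (j, gen t)) (fun j t t' => by
      refine (hlip j (gen t) (gen t')).trans ?_
      refine (hμle _).trans ?_
      rw [map_mul, map_inv, hgen, hgen]
      linarith)
    refine ⟨gen t, fun x hx j => ?_⟩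
    have h1 := ht x hx j
    have h2 : |h (j, x * gen t) - h (j, gen (act x t))| ≤ ε / 4 + ε / 4 := by
      refine (hlip j _ _).trans ((hμle _).trans ?_)
      have h3 := hact x hx t
      rw [map_mul, map_inv, map_mul, hgen, hgen, hθc x (Finset.mem_union_left _ hx)]
      linarith
    have h3 := abs_le.1 h1
    have h4 := abs_le.1 h2
    exact abs_lt.2 ⟨by linarith, by linarith⟩

end Pool.Agent.W335.EA
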