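import Mathlib
import Pool.Agent.W335.EA.Dense

/-!
# Generic extreme amenability
-/

set_option autoImplicit false

namespace Pool.Agent.W335.EA

open Set Filter Topology

theorem exists_box {ι : Type*} (O : Set (ι → ℝ)) (hO : IsOpen O) (f₀ : ι → ℝ) (h₀ : f₀ ∈ O) :
    ∃ (I : Finset ι) (r : ℝ), 0 < r ∧ ∀ f : ι → ℝ, (∀ i ∈ I, |f i - f₀ i| < r) → f ∈ O := by
  classical
  obtain ⟨I, u, hu, hI⟩ := isOpen_pi_iff.1 hO f₀ h₀
  have hr : ∀ i, ∃ r > 0, i ∈ I → ∀ s : ℝ, |s - f₀ i| < r → s ∈ u i := by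
    intro i
    by_cases hi : i ∈ I
    · obtain ⟨r, hr, h⟩ := Metric.isOpen_iff.1 (hu i hi).1 _ (hu i hi).2
      exact ⟨r, hr, fun _ s hs => h (by rw [Metric.mem_ball, Real.dist_eq]; exact hs)⟩
    · exact ⟨1, one_pos, fun h => absurd h hi⟩
  choose r hr hr' using hr
  have hmin : ∀ J : Finset ι, ∃ r₀ > 0, ∀ i ∈ J, r₀ ≤ r i := by
    intro J
    induction J using Finset.induction_on with
    | empty => exact ⟨1, one_pos, by simp⟩
    | insert b s _ ih =>
      obtain ⟨δ₁, h1, h2⟩ := ih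
      refine ⟨min δ₁ (r b), lt_min h1 (hr b), fun y hy => ?_⟩
      rcases Finset.mem_insert.1 hy with rfl | hy
      · exact min_le_right _ _
      · exact (min_le_left _ _).trans (h2 y hy)
  obtain ⟨r₀, hr₀, hmin⟩ := hmin I
  exact ⟨I, r₀, hr₀, fun f hf => hI fun i hi => hr' i hi _ (lt_of_lt_of_le (hf i hi) (hmin i hi))⟩

variable {p : (FreeGroup ℕ → FreeGroup ℕ → ℝ) → Prop} {T : Set (FreeGroup ℕ → FreeGroup ℕ → ℝ)}

/-- The space of bi-invariant metrics (in a closed set) is a Baire space. -/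
theorem baire (hT : IsClosed T)
    (hp : ∀ d, p d ↔ IsBI d ∧ (∀ g h, d g h = 0 → g = h) ∧ d ∈ T) : BaireSpace {d // p d} := by
  classical
  let G := FreeGroup ℕ
  let f : {d // p d} → (G → G → ℝ) × (G → G → ℝ) := fun x => (x.1, fun g h => (x.1 g h)⁻¹)
  have hcont : Continuous f := by
    refine continuous_subtype_val.prodMk (continuous_pi fun g => continuous_pi fun h => ?_)
    have h1 : Continuous fun x : {d // p d} => x.1 g h :=
      (continuous_apply h).comp ((continuous_apply g).comp continuous_subtype_val)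
    by_cases hgh : g = h
    · subst hgh
      have h2 : (fun x : {d // p d} => (x.1 g g)⁻¹) = fun _ => 0 := by
        funext x
        rw [((hp x.1).1 x.2).1.self, inv_zero]
      rw [h2]
      exact continuous_const
    · exact h1.inv₀ fun x hx => hgh (((hp x.1).1 x.2).2.1 g h hx)
  have hemb : IsEmbedding f := by
    refine IsEmbedding.of_comp hcont continuous_fst ?_
    exact IsEmbedding.subtypeVal
  have hcl : IsClosed (range f) := by
    have hr : range f = {q : (G → G → ℝ) × (G → G → ℝ) | q.1 ∈ T} ∩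
        ((⋂ g, {q | q.1 g g = 0}) ∩ ((⋂ g, {q | q.2 g g = 0}) ∩
        ((⋂ g, ⋂ h, {q | q.1 g h = q.1 h g}) ∩
        ((⋂ g, ⋂ h, ⋂ k, {q | q.1 g k ≤ q.1 g h + q.1 h k}) ∩
        ((⋂ g, ⋂ h, ⋂ k, {q | q.1 (k * g) (k * h) = q.1 g h}) ∩
        ((⋂ g, ⋂ h, ⋂ k, {q | q.1 (g * k) (h * k) = q.1 g h}) ∩
        (⋂ g, ⋂ h, {q | g ≠ h → q.1 g h * q.2 g h = 1}))))))) := by
      ext q
      constructor
      · rintro ⟨x, rfl⟩
        obtain ⟨hB, h0, hxT⟩ := (hp x.1).1 x.2
        refine ⟨hxT, mem_iInter.2 fun g => hB.self g, mem_iInter.2 fun g => ?_,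
          mem_iInter.2 fun g => mem_iInter.2 fun h => hB.symm g h,
          mem_iInter.2 fun g => mem_iInter.2 fun h => mem_iInter.2 fun k => hB.tri g h k,
          mem_iInter.2 fun g => mem_iInter.2 fun h => mem_iInter.2 fun k => hB.left g h k,
          mem_iInter.2 fun g => mem_iInter.2 fun h => mem_iInter.2 fun k => hB.right g h k,
          mem_iInter.2 fun g => mem_iInter.2 fun h => fun hgh => ?_⟩
        · show (x.1 g g)⁻¹ = 0
          rw [hB.self, inv_zero]
        · show x.1 g h * (x.1 g h)⁻¹ = 1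
          exact mul_inv_cancel₀ fun h1 => hgh (h0 g h h1)
      · rintro ⟨h1, h2, h3, h4, h5, h6, h7, h8⟩
        have h8' : ∀ g h, g ≠ h → q.1 g h * q.2 g h = 1 := fun g h =>
          mem_iInter.1 (mem_iInter.1 h8 g) h
        refine ⟨⟨q.1, (hp q.1).2 ⟨⟨fun g => mem_iInter.1 h2 g,
          fun g h => mem_iInter.1 (mem_iInter.1 h4 g) h,
          fun g h k => mem_iInter.1 (mem_iInter.1 (mem_iInter.1 h5 g) h) k,
          fun g h k => mem_iInter.1 (mem_iInter.1 (mem_iInter.1 h6 g) h) k,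
          fun g h k => mem_iInter.1 (mem_iInter.1 (mem_iInter.1 h7 g) h) k⟩, fun g h hgh => ?_,
          h1⟩⟩, ?_⟩
        · by_contra hne
          have := h8' g h hne
          rw [hgh, zero_mul] at this
          exact zero_ne_one this
        · refine Prod.ext rfl ?_
          funext g h
          show (q.1 g h)⁻¹ = q.2 g h
          by_cases hgh : g = h
          · subst hgh
            have e1 : q.1 g g = 0 := mem_iInter.1 h2 g
            have e2 : q.2 g g = 0 := mem_iInter.1 h3 g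
            rw [e1, e2, inv_zero]
          · exact inv_eq_of_mul_eq_one_right (h8' g h hgh)
    rw [hr]
    refine (hT.preimage continuous_fst).inter ?_
    refine (isClosed_iInter fun g => isClosed_eq (by fun_prop) (by fun_prop)).inter ?_
    refine (isClosed_iInter fun g => isClosed_eq (by fun_prop) (by fun_prop)).inter ?_
    refine (isClosed_iInter fun g => isClosed_iInter fun h =>
      isClosed_eq (by fun_prop) (by fun_prop)).inter ?_
    refine (isClosed_iInter fun g => isClosed_iInter fun h => isClosed_iInter fun k =>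
      isClosed_le (by fun_prop) (by fun_prop)).inter ?_
    refine (isClosed_iInter fun g => isClosed_iInter fun h => isClosed_iInter fun k =>
      isClosed_eq (by fun_prop) (by fun_prop)).inter ?_
    refine (isClosed_iInter fun g => isClosed_iInter fun h => isClosed_iInter fun k =>
      isClosed_eq (by fun_prop) (by fun_prop)).inter ?_
    refine isClosed_iInter fun g => isClosed_iInter fun h => ?_
    by_cases hgh : g = h
    · have : {q : (G → G → ℝ) × (G → G → ℝ) | g ≠ h → q.1 g h * q.2 g h = 1} = univ := by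
        ext q
        constructor
        · intro _; trivial
        · intro _ h1; exact absurd hgh h1
      rw [this]
      exact isClosed_univ
    · have : {q : (G → G → ℝ) × (G → G → ℝ) | g ≠ h → q.1 g h * q.2 g h = 1} =
          {q | q.1 g h * q.2 g h = 1} := by
        ext q
        constructor
        · intro h1; exact h1 hgh
        · intro h1 _; exact h1
      rw [this]
      exact isClosed_eq (by fun_prop) (by fun_prop)
  have hclemb : IsClosedEmbedding f := ⟨hemb, hcl⟩
  have : Countable G := inferInstance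
  have hPol : PolishSpace {d // p d} := hclemb.polishSpace
  infer_instance

/-- The metrics which satisfy the criterion form a dense `Gδ`. -/
theorem generic (hT : IsClosed T)
    (hp : ∀ d, p d ↔ IsBI d ∧ (∀ g h, d g h = 0 → g = h) ∧ d ∈ T)
    (happ : ∀ d₀, p d₀ → ∀ A : Finset (FreeGroup ℕ × FreeGroup ℕ), ∃ D : ℝ, 1 ≤ D ∧
      (∀ q ∈ A, d₀ q.1 q.2 ≤ D) ∧ ∀ d, (∀ g h, d g h ≤ D) → d ∈ T) :
    IsGδ {x : {d // p d} | ∀ F k ε, 0 < ε → Crit x.1 F k ε} ∧
      Dense {x : {d // p d} | ∀ F k ε, 0 < ε → Crit x.1 F k ε} := by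
  classical
  have := baire hT hp
  let V : Finset (FreeGroup ℕ) × ℕ × ℕ → Set {d // p d} := fun i =>
    {x | Crit x.1 i.1 i.2.1 (1 / ((i.2.2 : ℝ) + 1))}
  have hVopen : ∀ i, IsOpen (V i) := fun i => (isOpen_crit _ _ _).preimage continuous_subtype_val
  have hVdense : ∀ i, Dense (V i) := by
    intro i x
    rw [mem_closure_iff]
    intro U hU hxU
    obtain ⟨O, hO, rfl⟩ := isOpen_induced_iff.1 hU
    let cur : (FreeGroup ℕ × FreeGroup ℕ → ℝ) → (FreeGroup ℕ → FreeGroup ℕ → ℝ) :=
      fun f g h => f (g, h)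
    have hcur : Continuous cur :=
      continuous_pi fun g => continuous_pi fun h => continuous_apply (g, h)
    obtain ⟨I, r, hr, hI⟩ := exists_box (cur ⁻¹' O) (hO.preimage hcur) (fun q => x.1 q.1 q.2) hxU
    obtain ⟨D, hD, hD1, hD2⟩ := happ x.1 x.2 I
    obtain ⟨hB, h0, -⟩ := (hp x.1).1 x.2
    obtain ⟨d, hd1, hd2, hd3, hd4, hd5⟩ := approx x.1 hB h0 D hD I hD1 r hr i.1 i.2.1
      (1 / ((i.2.2 : ℝ) + 1)) (by positivity)
    refine ⟨⟨d, (hp d).2 ⟨hd1, hd2, hD2 d hd3⟩⟩, ?_, hd5⟩
    exact hI (fun q => d q.1 q.2) hd4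
  have hset : {x : {d // p d} | ∀ F k ε, 0 < ε → Crit x.1 F k ε} = ⋂ i, V i := by
    ext x
    constructor
    · intro hx
      exact mem_iInter.2 fun i => hx _ _ _ (by positivity)
    · intro hx F k ε hε h h01 hlip
      obtain ⟨n, hn⟩ := exists_nat_one_div_lt hε
      obtain ⟨g, hg⟩ := mem_iInter.1 hx (F, k, n) h h01 hlip
      exact ⟨g, fun y hy j => (hg y hy j).trans hn⟩
  rw [hset]
  exact ⟨IsGδ.iInter_of_isOpen hVopen, dense_iInter_of_isOpen hVopen hVdense⟩

end Pool.Agent.W335.EA
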